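import Pool.Agent.N334.CH.Main

set_option autoImplicit false

/-!
# Chromatic numbers of touching graphs of unit spheres grow at least like `(n / log n) ^ 2`

`χ_n` is the largest chromatic number of the touching graph of a family of unit spheres in `ℝ^n` with
disjoint interiors, that is, the least number `r` such that every such family can be coloured with `r`
colours, touching spheres being coloured differently. We prove `χ_n ≥ c (n / log n) ^ 2` for all `n ≥ 2`,
`c = 1 / 300000`; regular simplices give only `n + 1`.

The packings are random-like families of vertices of the cube `{0, 1}^n` (`n` a power of two) with an even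
number of ones, no two at Hamming distance 2; the touching pairs are those at Hamming distance 4. The
number of vertices is of order `2^n / n^2`, and a family of vertices without touching pairs has at most
`C 2^n (log n)^2 / n^4` elements (counting of independent sets after Kleitman and Winston; library of the
starting file `S11932`).
-/

namespace Pool.Agent.Results.MP_facb47_co.QuadraticLowerBound

/-- unit balls in `ℝ^n`, given by their centres, with pairwise disjoint interiors -/
def IsPacking {n : ℕ} (B : Finset (EuclideanSpace ℝ (Fin n))) : Prop :=
  ∀ x ∈ B, ∀ y ∈ B, x ≠ y →
    Disjoint (interior (Metric.closedBall x 1)) (interior (Metric.closedBall y 1))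

/-- the balls can be coloured with `r` colours so that touching balls have different colours -/
def Colourable {n : ℕ} (B : Finset (EuclideanSpace ℝ (Fin n))) (r : ℕ) : Prop :=
  ∃ c : EuclideanSpace ℝ (Fin n) → Fin r, ∀ x ∈ B, ∀ y ∈ B, x ≠ y →
    (Metric.closedBall x 1 ∩ Metric.closedBall y 1).Nonempty → c x ≠ c y

/-- If `n ≥ 2` and every packing of unit balls in `ℝ^n` can be coloured with `r` colours, touching balls
having different colours, then `r ≥ (n / log n) ^ 2 / 300000`. -/
theorem result : ∀ n r : ℕ, 2 ≤ n →
    (∀ B : Finset (EuclideanSpace ℝ (Fin n)), IsPacking B → Colourable B r) →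
    1 / 300000 * ((n : ℝ) / Real.log n) ^ 2 ≤ r :=
  fun _ _ hn h => Pool.Agent.N334.CH.main hn h

end Pool.Agent.Results.MP_facb47_co.QuadraticLowerBound
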